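import Pool.Agent.H705.TR.Stm
import Pool.Graph.R_seed8.H305R2.MertensM

/-! Package NT2 of the project TR (helper705): the proportion of the free numbers among the rough numbers. -/

set_option autoImplicit false

namespace Pool.Agent.H600.TR

open Finset Filter Topology
open Pool.Agent.H705.TR

/-- the logarithm of the local factor at the primes `> 5` -/
noncomputable def hh (n : ℕ) : ℝ := if n ≤ 5 then 0 else Real.log (1 - 3 / (n : ℝ))

noncomputable def kf (n : ℕ) : ℝ := if n.Prime then hh n + 3 / n else 0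

theorem log_bound {u : ℝ} (h0 : 0 ≤ u) (h1 : u ≤ 1 / 2) : |Real.log (1 - u) + u| ≤ 2 * u ^ 2 := by
  have h2 : 0 < 1 - u := by linarith
  rw [abs_le]
  constructor
  · have h3 := Real.one_sub_inv_le_log_of_pos h2
    have h4 : -(u + 2 * u ^ 2) ≤ 1 - (1 - u)⁻¹ := by
      have h5 : (1 - u)⁻¹ ≤ 1 + u + 2 * u ^ 2 := by
        rw [inv_le_iff_one_le_mul₀ h2]
        nlinarith [mul_nonneg h0 h0, mul_nonneg (mul_nonneg h0 h0) (by linarith : 0 ≤ 1 / 2 - u)]
      linarith
    linarith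
  · have h3 := Real.log_le_sub_one_of_pos h2
    nlinarith [sq_nonneg u]

theorem kf_bound (n : ℕ) : ‖kf n‖ ≤ 18 * (1 / (n : ℝ) ^ 2) := by
  unfold kf
  split_ifs with hn
  · have hn2 : (2 : ℝ) ≤ n := by exact_mod_cast hn.two_le
    have hn0 : (0 : ℝ) < n := by linarith
    unfold hh
    split_ifs with h5
    · have h5' : (n : ℝ) ≤ 5 := by exact_mod_cast h5
      rw [zero_add, Real.norm_of_nonneg (by positivity)]
      rw [mul_one_div, div_le_div_iff₀ hn0 (by positivity)]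
      nlinarith
    · have h6 : (6 : ℝ) ≤ n := by
        have : 6 ≤ n := by omega
        exact_mod_cast this
      have h7 : 3 / (n : ℝ) ≤ 1 / 2 := by
        rw [div_le_iff₀ hn0]
        linarith
      have := log_bound (u := 3 / (n : ℝ)) (by positivity) h7
      rw [Real.norm_eq_abs]
      refine this.trans (le_of_eq ?_)
      field_simp
      norm_num
  · rw [norm_zero]
    positivity

theorem kf_summable : Summable kf :=
  Summable.of_norm_bounded ((Real.summable_one_div_nat_pow.2 (by norm_num)).mul_left 18) kf_bound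

/-- the sum of the logarithms of the local factors -/
noncomputable def LL (N : ℕ) : ℝ := ∑ p ∈ (Icc 1 N).filter Nat.Prime, hh p

theorem hh_nonpos (n : ℕ) : hh n ≤ 0 := by
  unfold hh
  split_ifs with h
  · exact le_rfl
  · have h6 : (6 : ℝ) ≤ n := by
      have : 6 ≤ n := by omega
      exact_mod_cast this
    have h7 : 3 / (n : ℝ) ≤ 1 / 2 := by
      rw [div_le_iff₀ (by linarith)]
      linarith
    refine Real.log_nonpos (by linarith) ?_
    have : 0 ≤ 3 / (n : ℝ) := by positivity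
    linarith

theorem LL_anti {a b : ℕ} (h : a ≤ b) : LL b ≤ LL a := by
  unfold LL
  rw [← sum_sdiff (filter_subset_filter _ (Icc_subset_Icc_right h))]
  have : ∑ p ∈ (Icc 1 b).filter Nat.Prime \ (Icc 1 a).filter Nat.Prime, hh p ≤ 0 :=
    sum_nonpos fun p _ => hh_nonpos p
  linarith

theorem LL_tendsto : ∃ B : ℝ, Tendsto (fun N : ℕ => LL N + 3 * Real.log (Real.log N)) atTop (𝓝 B) := by
  obtain ⟨M, hM⟩ := Pool.Agent.H305R2.mertens_inv_tendsto
  have h1 := (kf_summable.hasSum.tendsto_sum_nat).comp (tendsto_add_atTop_nat 1)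
  have h2 := h1.sub (hM.const_mul 3)
  refine ⟨_, h2.congr fun N => ?_⟩
  simp only [Function.comp_apply]
  have h3 : ∑ n ∈ range (N + 1), kf n =
      LL N + 3 * ∑ p ∈ (Icc 1 N).filter Nat.Prime, (1 : ℝ) / p := by
    unfold LL
    rw [mul_sum, ← sum_add_distrib, sum_filter]
    have h4 : range (N + 1) = insert 0 (Icc 1 N) := by
      ext i
      simp only [mem_range, mem_insert, mem_Icc]
      omega
    rw [h4, sum_insert (by simp)]
    have h5 : kf 0 = 0 := by simp [kf, Nat.not_prime_zero]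
    rw [h5, zero_add]
    refine sum_congr rfl fun i _ => ?_
    unfold kf
    split_ifs <;> ring
  rw [h3]
  ring

/-- the local factor -/
noncomputable def ff (l : ℕ) : ℝ :=
  if l = 2 then (1 / 2 : ℝ) else if l = 3 then (1 / 3 : ℝ) else 1 - 3 / (l : ℝ)

theorem prod_split {z T : ℕ} (hz : 5 ≤ z) (hT : z ≤ T) :
    ∏ l ∈ (Icc 1 T).filter Nat.Prime, ff l =
      (∏ l ∈ (Icc 1 z).filter Nat.Prime, ff l) * Real.exp (LL T - LL z) := by
  have hsub : (Icc 1 z).filter Nat.Prime ⊆ (Icc 1 T).filter Nat.Prime :=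
    filter_subset_filter _ (Icc_subset_Icc_right hT)
  have h1 : LL T - LL z = ∑ p ∈ (Icc 1 T).filter Nat.Prime \ (Icc 1 z).filter Nat.Prime, hh p := by
    unfold LL
    rw [← sum_sdiff hsub]
    ring
  rw [h1, Real.exp_sum, ← prod_sdiff hsub, mul_comm]
  congr 1
  refine prod_congr rfl fun l hl => ?_
  have hlz : z < l := by
    rw [Finset.mem_sdiff, Finset.mem_filter, Finset.mem_filter, Finset.mem_Icc,
      Finset.mem_Icc] at hl
    by_contra h
    exact hl.2 ⟨⟨hl.1.1.1, by omega⟩, hl.1.2⟩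
  have h6 : (6 : ℝ) ≤ l := by
    have : 6 ≤ l := by omega
    exact_mod_cast this
  unfold ff hh
  rw [if_neg (by omega), if_neg (by omega), if_neg (by omega), Real.exp_log]
  have h7 : 3 / (l : ℝ) ≤ 1 / 2 := by
    rw [div_le_iff₀ (by linarith)]
    linarith
  linarith

theorem prod_nonneg' (z : ℕ) : 0 ≤ ∏ l ∈ (Icc 1 z).filter Nat.Prime, ff l := by
  refine prod_nonneg fun l hl => ?_
  have hp := (mem_filter.1 hl).2
  unfold ff
  split_ifs with h2 h3
  · norm_num
  · norm_num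
  · have h4 : (3 : ℝ) ≤ l := by
      have := hp.two_le
      have : 3 ≤ l := by omega
      exact_mod_cast this
    have : 3 / (l : ℝ) ≤ 1 := by
      rw [div_le_one (by linarith)]
      exact h4
    linarith

theorem log_ratio {T : ℕ → ℕ} {a c₁ c₂ : ℝ} (h1 : 0 < c₁) (h2 : 0 < c₂)
    (hT : ∀ᶠ N : ℕ in atTop, c₁ * (N : ℝ) ^ a ≤ T N ∧ (T N : ℝ) ≤ c₂ * (N : ℝ) ^ a) :
    Tendsto (fun N : ℕ => Real.log (T N) / Real.log N) atTop (𝓝 a) := by
  have hlog : Tendsto (fun N : ℕ => Real.log (N : ℝ)) atTop atTop :=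
    Real.tendsto_log_atTop.comp tendsto_natCast_atTop_atTop
  have hc : ∀ c : ℝ, Tendsto (fun N : ℕ => c / Real.log (N : ℝ) + a) atTop (𝓝 a) := by
    intro c
    have := (hlog.const_div_atTop c).add_const a
    simpa using this
  refine tendsto_of_tendsto_of_tendsto_of_le_of_le' (hc (Real.log c₁)) (hc (Real.log c₂)) ?_ ?_
  · filter_upwards [hT, eventually_gt_atTop 1] with N hN hN1
    have hN0 : (0 : ℝ) < N := by positivity
    have hl : 0 < Real.log (N : ℝ) := Real.log_pos (by exact_mod_cast hN1)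
    have h3 := Real.log_le_log (by positivity) hN.1
    rw [Real.log_mul h1.ne' (by positivity), Real.log_rpow hN0] at h3
    rw [le_div_iff₀ hl, add_mul, div_mul_cancel₀ _ hl.ne']
    exact h3
  · filter_upwards [hT, eventually_gt_atTop 1] with N hN hN1
    have hN0 : (0 : ℝ) < N := by positivity
    have hl : 0 < Real.log (N : ℝ) := Real.log_pos (by exact_mod_cast hN1)
    have h4 : 0 < (T N : ℝ) := lt_of_lt_of_le (by positivity) hN.1
    have h3 := Real.log_le_log h4 hN.2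
    rw [Real.log_mul h2.ne' (by positivity), Real.log_rpow hN0] at h3
    rw [div_le_iff₀ hl, add_mul, div_mul_cancel₀ _ hl.ne']
    exact h3

theorem LL_diff {T z : ℕ → ℕ} {s : ℝ} (hs : 0 < s) (hT : Tendsto T atTop atTop)
    (hz : Tendsto z atTop atTop)
    (hTl : Tendsto (fun N : ℕ => Real.log (T N) / Real.log N) atTop (𝓝 (1 / 2)))
    (hzl : Tendsto (fun N : ℕ => Real.log (z N) / Real.log N) atTop (𝓝 (s / 2))) :
    Tendsto (fun N : ℕ => Real.exp (LL (T N) - LL (z N))) atTop (𝓝 (s ^ 3)) := by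
  obtain ⟨B, hB⟩ := LL_tendsto
  have h1 := hB.comp hT
  have h2 := hB.comp hz
  have h3 := hzl.div hTl (by norm_num)
  have h4 : Tendsto (fun N : ℕ => Real.log (z N) / Real.log (T N)) atTop (𝓝 s) := by
    have : s / 2 / (1 / 2) = s := by ring
    rw [this] at h3
    refine h3.congr' ?_
    filter_upwards [eventually_gt_atTop 1] with N hN1
    have hl : 0 < Real.log (N : ℝ) := Real.log_pos (by exact_mod_cast hN1)
    simp only [Pi.div_apply]
    rw [div_div_div_cancel_right₀ hl.ne']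
  have h5 := (h4.log hs.ne').const_mul 3
  have h6 := ((h1.sub h2).add h5)
  have h7 : B - B + 3 * Real.log s = 3 * Real.log s := by ring
  rw [h7] at h6
  have h8 : Tendsto (fun N : ℕ => LL (T N) - LL (z N)) atTop (𝓝 (3 * Real.log s)) := by
    refine h6.congr' ?_
    filter_upwards [hT.eventually_ge_atTop 2, hz.eventually_ge_atTop 2] with N hN1 hN2
    have hl1 : 0 < Real.log (T N : ℝ) := Real.log_pos (by exact_mod_cast hN1)
    have hl2 : 0 < Real.log (z N : ℝ) := Real.log_pos (by exact_mod_cast hN2)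
    simp only [Function.comp_apply]
    rw [Real.log_div hl2.ne' hl1.ne']
    ring
  have h9 := (Real.continuous_exp.tendsto _).comp h8
  have h10 : Real.exp (3 * Real.log s) = s ^ 3 := by
    rw [mul_comm, Real.exp_mul, Real.exp_log hs]
    norm_num
  rw [h10] at h9
  exact h9

theorem un_mono {M : ℕ} {Q Q' : ℕ → Prop} (h : ∀ y, Q y → Q' y) : un M Q ≤ un M Q' := by
  classical
  unfold un
  refine div_le_div_of_nonneg_right ?_ (Nat.cast_nonneg _)
  have : ((range M).filter Q).card ≤ ((range M).filter Q').card :=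
    card_le_card (monotone_filter_right _ fun y _ hy => h y hy)
  exact_mod_cast this

theorem rpow_half_sq (N : ℕ) : ((N : ℝ) ^ (1 / 2 : ℝ)) ^ 2 = N := by
  rw [← Real.rpow_natCast, ← Real.rpow_mul (Nat.cast_nonneg _)]
  norm_num

theorem sqrt_up : ∀ᶠ N : ℕ in atTop, (1 / 2 : ℝ) * (N : ℝ) ^ (1 / 2 : ℝ) ≤ Nat.sqrt (N + 6) ∧
    (Nat.sqrt (N + 6) : ℝ) ≤ 3 * (N : ℝ) ^ (1 / 2 : ℝ) := by
  filter_upwards [eventually_ge_atTop 4] with N hN
  have hN' : (4 : ℝ) ≤ N := by exact_mod_cast hN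
  have h0 := rpow_half_sq N
  have h1 : 0 ≤ (N : ℝ) ^ (1 / 2 : ℝ) := by positivity
  have h2 : 2 ≤ (N : ℝ) ^ (1 / 2 : ℝ) := by nlinarith
  have h3 : (Nat.sqrt (N + 6) : ℝ) ^ 2 ≤ N + 6 := by exact_mod_cast Nat.sqrt_le' (N + 6)
  have h4 : (N : ℝ) + 6 < ((Nat.sqrt (N + 6) : ℝ) + 1) ^ 2 := by
    exact_mod_cast Nat.lt_succ_sqrt' (N + 6)
  have h5 : (0 : ℝ) ≤ Nat.sqrt (N + 6) := Nat.cast_nonneg _
  constructor
  · by_contra h
    push Not at h
    nlinarith
  · by_contra h
    push Not at h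
    nlinarith

theorem sqrt_lo : ∀ᶠ N : ℕ in atTop, (1 / 4 : ℝ) * (N : ℝ) ^ (1 / 2 : ℝ) ≤ Nat.sqrt (N / 2) ∧
    (Nat.sqrt (N / 2) : ℝ) ≤ 1 * (N : ℝ) ^ (1 / 2 : ℝ) := by
  filter_upwards [eventually_ge_atTop 16] with N hN
  have hN' : (16 : ℝ) ≤ N := by exact_mod_cast hN
  have h0 := rpow_half_sq N
  have h1 : 0 ≤ (N : ℝ) ^ (1 / 2 : ℝ) := by positivity
  have h2 : 4 ≤ (N : ℝ) ^ (1 / 2 : ℝ) := by nlinarith
  have h3 : (Nat.sqrt (N / 2) : ℝ) ^ 2 ≤ N := by
    have : Nat.sqrt (N / 2) ^ 2 ≤ N := (Nat.sqrt_le' (N / 2)).trans (Nat.div_le_self _ _)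
    exact_mod_cast this
  have h4 : (N : ℝ) / 2 ≤ ((Nat.sqrt (N / 2) : ℝ) + 1) ^ 2 := by
    have h6 := Nat.lt_succ_sqrt' (N / 2)
    rw [Nat.succ_eq_add_one] at h6
    have h7 : N ≤ 2 * (Nat.sqrt (N / 2) + 1) ^ 2 := by omega
    have h8 : (N : ℝ) ≤ 2 * ((Nat.sqrt (N / 2) : ℝ) + 1) ^ 2 := by exact_mod_cast h7
    linarith
  have h5 : (0 : ℝ) ≤ Nat.sqrt (N / 2) := Nat.cast_nonneg _
  constructor
  · by_contra h
    push Not at h
    nlinarith
  · by_contra h
    push Not at h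
    nlinarith

theorem T_NT2 (hPRD : P_PRD) : P_NT2 := by
  intro s hs0 hs1 ε hε
  set z : ℕ → ℕ := fun N => ⌊(N : ℝ) ^ (s / 2)⌋₊ with hz
  have hpow : Tendsto (fun N : ℕ => (N : ℝ) ^ (s / 2)) atTop atTop :=
    (tendsto_rpow_atTop (by positivity)).comp tendsto_natCast_atTop_atTop
  have hzt : Tendsto z atTop atTop := tendsto_nat_floor_atTop.comp hpow
  have hzb : ∀ᶠ N : ℕ in atTop, (1 / 2 : ℝ) * (N : ℝ) ^ (s / 2) ≤ z N ∧
      (z N : ℝ) ≤ 1 * (N : ℝ) ^ (s / 2) := by
    filter_upwards [hpow.eventually_ge_atTop 2] with N hN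
    have h1 := Nat.floor_le (show 0 ≤ (N : ℝ) ^ (s / 2) by positivity)
    have h2 := Nat.lt_floor_add_one ((N : ℝ) ^ (s / 2))
    constructor
    · simp only [hz]
      linarith
    · simp only [hz]
      linarith
  have hzl := log_ratio (by norm_num) (by norm_num) hzb
  have hupl := log_ratio (by norm_num) (by norm_num) sqrt_up
  have hlol := log_ratio (by norm_num) (by norm_num) sqrt_lo
  have hsq : Tendsto Nat.sqrt atTop atTop := by
    refine tendsto_atTop.2 fun b => ?_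
    filter_upwards [eventually_ge_atTop (b ^ 2)] with n hn
    rw [Nat.le_sqrt']
    exact hn
  have hT1 : Tendsto (fun N : ℕ => Nat.sqrt (N + 6)) atTop atTop :=
    hsq.comp (tendsto_add_atTop_nat 6)
  have hT2 : Tendsto (fun N : ℕ => Nat.sqrt (N / 2)) atTop atTop :=
    hsq.comp (Nat.tendsto_div_const_atTop (by norm_num))
  have hlim1 := LL_diff hs0 hT1 hzt hupl hzl
  have hlim2 := LL_diff hs0 hT2 hzt hlol hzl
  have e1 := hlim1.eventually_const_lt (show s ^ 3 - ε < s ^ 3 by linarith)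
  have e2 := hlim2.eventually_lt_const (show s ^ 3 < s ^ 3 + ε by linarith)
  have e3 : ∀ᶠ N : ℕ in atTop, 2 * z N ^ 2 ≤ N := by
    have hp2 : Tendsto (fun N : ℕ => (N : ℝ) ^ (1 - s)) atTop atTop :=
      (tendsto_rpow_atTop (by linarith)).comp tendsto_natCast_atTop_atTop
    filter_upwards [hp2.eventually_ge_atTop 2, hzb, eventually_gt_atTop 0] with N hN hN' hN0
    have hN0' : (0 : ℝ) < N := by exact_mod_cast hN0
    have h1 : (z N : ℝ) ^ 2 ≤ (N : ℝ) ^ s := by
      have h2 : (N : ℝ) ^ s = ((N : ℝ) ^ (s / 2)) ^ 2 := by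
        rw [← Real.rpow_natCast, ← Real.rpow_mul hN0'.le]
        congr 1
        push_cast
        ring
      rw [h2]
      have := hN'.2
      rw [one_mul] at this
      exact pow_le_pow_left₀ (Nat.cast_nonneg _) this 2
    have h3 : (N : ℝ) ^ s * (N : ℝ) ^ (1 - s) = N := by
      rw [← Real.rpow_add hN0']
      simp
    have h4 : 2 * (z N : ℝ) ^ 2 ≤ N := by
      have h5 : 0 ≤ (N : ℝ) ^ s := by positivity
      nlinarith
    exact_mod_cast h4
  filter_upwards [e1, e2, e3, hzt.eventually_ge_atTop 5] with N h1 h2 h3 h4 c m hNc hcN hfull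
  change (s ^ 3 - ε) * un m (R (z N) c) ≤ un m (fun y => R (z N) c y ∧ Free c y) ∧
    un m (fun y => R (z N) c y ∧ Free c y) ≤ (s ^ 3 + ε) * un m (R (z N) c)
  have hzc : z N ^ 2 ≤ c := by omega
  obtain ⟨hm0, hm⟩ := hfull
  have hP : ∀ T : ℕ, T ^ 2 ≤ c + 6 →
      un m (fun y => ∀ l ∈ (Icc 1 T).filter Nat.Prime, ¬ (l ∣ y ∨ l ∣ y + 2 ∨ l ∣ y + 6)) =
        ∏ l ∈ (Icc 1 T).filter Nat.Prime, ff l := by
    intro T hT
    refine hPRD m _ hm0 fun l hl => ?_
    have hlp := (Finset.mem_filter.1 hl).2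
    have hlT := (Finset.mem_Icc.1 (Finset.mem_filter.1 hl).1).2
    exact ⟨hlp, hm l hlp ((Nat.pow_le_pow_left hlT 2).trans hT)⟩
  have hR : un m (R (z N) c) = ∏ l ∈ (Icc 1 (z N)).filter Nat.Prime, ff l := by
    rw [← hP (z N) (by omega)]
    congr 1
    funext y
    apply propext
    constructor
    · intro h l hl
      have hlp := (Finset.mem_filter.1 hl).2
      have hlT := (Finset.mem_Icc.1 (Finset.mem_filter.1 hl).1).2
      have hl2 : l ^ 2 ≤ c := (Nat.pow_le_pow_left hlT 2).trans hzc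
      rintro (h5 | h5 | h5)
      · exact h l hlp hlT 0 (by simp) (by omega) (by simpa using h5)
      · exact h l hlp hlT 2 (by simp) (by omega) h5
      · exact h l hlp hlT 6 (by simp) (by omega) h5
    · intro h p hp hpz β hβ _ hd
      refine h p (Finset.mem_filter.2 ⟨Finset.mem_Icc.2 ⟨hp.one_le, hpz⟩, hp⟩) ?_
      rcases hβ with rfl | rfl | rfl
      · left; simpa using hd
      · right; left; exact hd
      · right; right; exact hd
  have hup : un m (fun y => R (z N) c y ∧ Free c y) ≤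
      ∏ l ∈ (Icc 1 (Nat.sqrt c)).filter Nat.Prime, ff l := by
    rw [← hP (Nat.sqrt c) ((Nat.sqrt_le' c).trans (by omega))]
    refine un_mono fun y hy l hl => ?_
    have hlp := (Finset.mem_filter.1 hl).2
    have hlT := (Finset.mem_Icc.1 (Finset.mem_filter.1 hl).1).2
    have hl2 : l ^ 2 ≤ c := (Nat.pow_le_pow_left hlT 2).trans (Nat.sqrt_le' c)
    obtain ⟨-, g1, g2, g3⟩ := hy
    rintro (h5 | h5 | h5)
    · exact g1 l hlp hl2 h5
    · exact g2 l hlp (by omega) h5
    · exact g3 l hlp (by omega) h5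
  have hlo : ∏ l ∈ (Icc 1 (Nat.sqrt (c + 6))).filter Nat.Prime, ff l ≤
      un m (fun y => R (z N) c y ∧ Free c y) := by
    rw [← hP (Nat.sqrt (c + 6)) (Nat.sqrt_le' _)]
    refine un_mono fun y hy => ?_
    have key : ∀ p : ℕ, p.Prime → p ^ 2 ≤ c + 6 → ¬ (p ∣ y ∨ p ∣ y + 2 ∨ p ∣ y + 6) := by
      intro p hp hp2
      exact hy p (Finset.mem_filter.2 ⟨Finset.mem_Icc.2 ⟨hp.one_le, Nat.le_sqrt'.2 hp2⟩, hp⟩)
    refine ⟨fun p hp _ β hβ hp2 hd => ?_, fun p hp hp2 hd => ?_, fun p hp hp2 hd => ?_,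
      fun p hp hp2 hd => ?_⟩
    · rcases hβ with rfl | rfl | rfl
      · exact key p hp (by omega) (Or.inl (by simpa using hd))
      · exact key p hp (by omega) (Or.inr (Or.inl hd))
      · exact key p hp (by omega) (Or.inr (Or.inr hd))
    · exact key p hp (by omega) (Or.inl hd)
    · exact key p hp (by omega) (Or.inr (Or.inl hd))
    · exact key p hp (by omega) (Or.inr (Or.inr hd))
  have hP0 := prod_nonneg' (z N)
  have hz1 : z N ≤ Nat.sqrt c := Nat.le_sqrt'.2 hzc
  have hz2 : z N ≤ Nat.sqrt (c + 6) := Nat.le_sqrt'.2 (by omega)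
  rw [prod_split h4 hz1] at hup
  rw [prod_split h4 hz2] at hlo
  rw [hR]
  have hmono1 : Real.exp (LL (Nat.sqrt (N + 6)) - LL (z N)) ≤
      Real.exp (LL (Nat.sqrt (c + 6)) - LL (z N)) := by
    rw [Real.exp_le_exp]
    have := LL_anti (Nat.sqrt_le_sqrt (show c + 6 ≤ N + 6 by omega))
    linarith
  have hmono2 : Real.exp (LL (Nat.sqrt c) - LL (z N)) ≤
      Real.exp (LL (Nat.sqrt (N / 2)) - LL (z N)) := by
    rw [Real.exp_le_exp]
    have := LL_anti (Nat.sqrt_le_sqrt (show N / 2 ≤ c by omega))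
    linarith
  constructor
  · refine le_trans ?_ hlo
    rw [mul_comm]
    exact mul_le_mul_of_nonneg_left (h1.le.trans hmono1) hP0
  · refine hup.trans ?_
    rw [mul_comm]
    exact mul_le_mul_of_nonneg_right (hmono2.trans h2.le) hP0

end Pool.Agent.H600.TR
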